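import Mathlib
import Pool.Agent.R449.SP.Fer

set_option autoImplicit false

/-!
# `n ^ n + 1` and almost every real base

If `n ^ n + 1` is prime and `n ≥ 2` then `n = 2 ^ (2 ^ k)`, and for these `n` one has
`n ^ n + 1 = 2 ^ N + 1` with `N = 2 ^ (k + 2 ^ k)`.  All prime factors of this number exceed `N`, so
that it is its own `N`-rough part (the product, with multiplicity, of the prime factors larger than
`N`).  We consider the integers `⌊x ^ N⌋ + 1` for real bases `x > 1` and prove that for almost every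
`x` their `N`-rough parts are prime for finitely many `N = 2 ^ (k + 2 ^ k)` only, and even for
finitely many powers `N` of two only, and for finitely many elements `N` of any given set of
exponents with `∑ log N / N < ∞`.
-/

namespace Pool.Agent.Results.MP_a70bdc_nt.AlmostEveryBase

open Filter Topology MeasureTheory

/-- The product, with multiplicity, of the prime factors of `m` that are larger than `N`. -/
def roughPart (N m : ℕ) : ℕ := (m.primeFactorsList.filter (fun r => N < r)).prod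

/-- The exponent of two in `n ^ n`, `n = 2 ^ (2 ^ k)`. -/
def expo (k : ℕ) : ℕ := 2 ^ (k + 2 ^ k)

lemma expo_inj : Function.Injective expo := by
  have h : StrictMono expo := by
    refine strictMono_nat_of_lt_succ fun k => ?_
    unfold expo
    refine Nat.pow_lt_pow_right (by norm_num) ?_
    have : 2 ^ k ≤ 2 ^ (k + 1) := Nat.pow_le_pow_right (by norm_num) (Nat.le_succ k)
    omega
  exact h.injective

lemma nn_eq (k : ℕ) : (2 ^ 2 ^ k) ^ (2 ^ 2 ^ k) + 1 = 2 ^ expo k + 1 := by
  unfold expo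
  rw [← pow_mul, ← pow_add]

/-- **Almost every real base.** -/
theorem result :
    (∀ k : ℕ, (2 ^ 2 ^ k) ^ (2 ^ 2 ^ k) + 1 = 2 ^ expo k + 1 ∧
      roughPart (expo k) (⌊(2 : ℝ) ^ expo k⌋₊ + 1) = (2 ^ 2 ^ k) ^ (2 ^ 2 ^ k) + 1) ∧
    (∀ᵐ x : ℝ, 1 < x →
      {k : ℕ | (roughPart (expo k) (⌊x ^ expo k⌋₊ + 1)).Prime}.Finite) ∧
    (∀ᵐ x : ℝ, 1 < x →
      {m : ℕ | (roughPart (2 ^ m) (⌊x ^ 2 ^ m⌋₊ + 1)).Prime}.Finite) ∧
    (∀ E : Set ℕ, Summable (E.indicator fun N : ℕ => Real.log N / N) → ∀ᵐ x : ℝ, 1 < x →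
      {N : ℕ | N ∈ E ∧ (roughPart N (⌊x ^ N⌋₊ + 1)).Prime}.Finite) := by
  have hinj : Function.Injective (fun m : ℕ => 2 ^ m) := Nat.pow_right_injective le_rfl
  have htwo := Pool.Agent.R449.SP.sparse_base
    (Pool.Agent.R449.SP.summable_range hinj Pool.Agent.R449.SP.summable_two)
  have hm : ∀ᵐ x : ℝ, 1 < x → {m : ℕ | (roughPart (2 ^ m) (⌊x ^ 2 ^ m⌋₊ + 1)).Prime}.Finite := by
    filter_upwards [htwo] with x hx h1
    refine ((hx h1).preimage (f := fun m : ℕ => 2 ^ m) hinj.injOn).subset fun m hm => ?_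
    exact ⟨Set.mem_range_self m, hm⟩
  refine ⟨fun k => ⟨nn_eq k, ?_⟩, ?_, hm, fun E hE => Pool.Agent.R449.SP.sparse_base hE⟩
  · rw [nn_eq]
    exact Pool.Agent.R449.SP.rough_fermat (k + 2 ^ k)
  · filter_upwards [hm] with x hx h1
    have hi : Function.Injective (fun k : ℕ => k + 2 ^ k) := by
      have h : StrictMono (fun k : ℕ => k + 2 ^ k) := by
        refine strictMono_nat_of_lt_succ fun k => ?_
        have : 2 ^ k ≤ 2 ^ (k + 1) := Nat.pow_le_pow_right (by norm_num) (Nat.le_succ k)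
        show k + 2 ^ k < k + 1 + 2 ^ (k + 1)
        omega
      exact h.injective
    refine ((hx h1).preimage (f := fun k : ℕ => k + 2 ^ k) hi.injOn).subset fun k hk => ?_
    exact hk

end Pool.Agent.Results.MP_a70bdc_nt.AlmostEveryBase
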