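import Pool.Agent.R496.DigN

/-!
# The digits in base `n` of the factors of `n ^ n + 1`

If `n ^ n + 1` is prime and `n ≥ 2` then `n = 2 ^ (2 ^ k)`.  For such an `n ≥ 4` let `n ^ n + 1 = a b` with
`a, b > 1`.  Then the product of the numbers of nonzero digits of `a` and of `b` in base `n` is at least
`(3 / 4) n + 2`.

Proof.  Expanding `a b - 1` one gets `z(a) z(b) - 1` terms `d n ^ l`, `0 < d ≤ (n - 1) ^ 2`, with sum `n ^ n`.  Let `s`
be the least exponent and let `c` be the carry into the place `T`, `s < T ≤ n`, of the sum of the terms with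
`l < T`; it is positive.  By induction there are `T - s + x` terms with `l < T`, where `x ≥ 0` and
`c ≤ (n - 1) (x + 1)`: if there is no term with `l = T`, then `n` divides `c`, so `x ≥ 1`.  Hence there are at
least `n - s` terms.  Finally `s < n / 4`, because no proper divisor of the Fermat number
`F_m = 2 ^ (2 ^ m) + 1` is congruent to one modulo `2 ^ (2 ^ (m - 2))`.
-/

set_option autoImplicit false

namespace Pool.Agent.Results.MP_a70bdc_nt.BaseNDigits

/-- the number of nonzero digits of `a` in base `B` -/
def nonzeroDigits (B a : ℕ) : ℕ := ((Nat.digits B a).filter (fun d => d ≠ 0)).length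

/-- If `n = 2 ^ (2 ^ k)`, `k ≥ 1`, and `n ^ n + 1 = a b` with `a, b > 1`, then the product of the numbers of
nonzero digits of `a` and `b` in base `n` is at least `(3 n + 8) / 4`. -/
theorem result (k n a b : ℕ) (hk : 1 ≤ k) (hn : n = 2 ^ (2 ^ k)) (hab : a * b = n ^ n + 1)
    (ha : 1 < a) (hb : 1 < b) : 3 * n + 8 ≤ 4 * (nonzeroDigits n a * nonzeroDigits n b) :=
  Pool.Agent.R496.nn_digits k n a b hk hn hab ha hb

end Pool.Agent.Results.MP_a70bdc_nt.BaseNDigits
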