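import Pool.Agent.R496.NN
import Pool.Agent.R496.NNT

/-!
# The odd part of Euler's function of `n ^ n + 1`

If `n ^ n + 1` is prime and `n ≥ 2`, then `n = 2 ^ (2 ^ k)`.  For such an `n` the number `n ^ n + 1` is
prime exactly when the odd part `w` of `φ(n ^ n + 1)` is `1`.
-/

set_option autoImplicit false

namespace Pool.Agent.Results.MP_a70bdc_nt.OddPartGap

/-- Let `n = 2 ^ (2 ^ k)` be such that `n ^ n + 1` is composite, let `φ(n ^ n + 1) = 2 ^ v w` with `w` odd,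
let `r` be the number of prime factors of `n ^ n + 1` counted with multiplicity and put
`S = √(n log₂ n)`.  Then `n ^ n + 1 < (2 w) ^ (r + 1)`, `w > 2 ^ S`, and fewer than
`(n ^ n + 1) / 2 ^ S` residue classes `b` modulo `n ^ n + 1` satisfy `b ^ (n ^ n) = 1`. -/
theorem result (k n : ℕ) (hn : n = 2 ^ (2 ^ k)) (hc : ¬ (n ^ n + 1).Prime) (v w : ℕ) (hw : Odd w)
    (hvw : Nat.totient (n ^ n + 1) = 2 ^ v * w) :
    n ^ n + 1 < (2 * w) ^ (ArithmeticFunction.cardFactors (n ^ n + 1) + 1) ∧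
    (2 : ℝ) ^ Real.sqrt (n * Real.logb 2 n) < w ∧
    (Nat.card {b : ZMod (n ^ n + 1) // b ^ (n ^ n) = 1} : ℝ) <
      ((n : ℝ) ^ n + 1) / (2 : ℝ) ^ Real.sqrt (n * Real.logb 2 n) := by
  have hN := Pool.Agent.R496.NN.nn_eq k n hn
  have hs : Real.sqrt ((n : ℝ) * Real.logb 2 n) =
      (2 : ℝ) ^ (((k + 2 ^ k : ℕ) : ℝ) / 2) := by
    have h1 : (n : ℝ) = (2 : ℝ) ^ (2 ^ k) := by
      rw [hn]
      push_cast
      ring
    have h2 : Real.logb 2 n = (2 : ℝ) ^ k := by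
      rw [h1, Real.logb_pow, Real.logb_self_eq_one (by norm_num)]
      push_cast
      ring
    rw [h2, h1, ← pow_add, Real.sqrt_eq_rpow, ← Real.rpow_natCast, ← Real.rpow_mul (by norm_num)]
    congr 1
    push_cast
    ring
  have hcast : ((n : ℝ) ^ n + 1) = ((n ^ n + 1 : ℕ) : ℝ) := by push_cast; ring
  rw [hs, hcast]
  have hsub : ({b : ZMod (n ^ n + 1) // b ^ (n ^ n) = 1}) =
      ({b : ZMod (n ^ n + 1) // b ^ (n ^ n + 1 - 1) = 1}) := by
    rw [Nat.add_sub_cancel]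
  rw [hsub]
  rw [hN] at hc hvw ⊢
  exact Pool.Agent.R496.NNT.result (k + 2 ^ k) hc v w hw hvw

end Pool.Agent.Results.MP_a70bdc_nt.OddPartGap
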