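import Pool.Agent.R496.NN
import Pool.Agent.R496.NNQ

/-!
# Divisors of `n ^ n + 1` modulo `n ^ (n / 4)`, and a primality test

If `n ^ n + 1` is prime and `n ≥ 2`, then `n = 2 ^ (2 ^ k)`.
-/

set_option autoImplicit false

namespace Pool.Agent.Results.MP_a70bdc_nt.QuarterPowerTest

/-- Let `n = 2 ^ (2 ^ k)` with `k ≥ 1`.
(1) No divisor `d` of `n ^ n + 1` with `1 < d < n ^ n + 1` satisfies `d ≡ 1 mod n ^ (n / 4)`.
(2) For every integer `i` with `n / 4 ≤ i < n` the number `n ^ n + 1` is prime if and only if some `b`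
satisfies `b ^ (n ^ i) ≡ -1 mod n ^ n + 1`. -/
theorem result (k n : ℕ) (hk : 1 ≤ k) (hn : n = 2 ^ (2 ^ k)) :
    (∀ d : ℕ, d ∣ n ^ n + 1 → 1 < d → d < n ^ n + 1 → ¬ n ^ (n / 4) ∣ d - 1) ∧
    (∀ i : ℕ, n / 4 ≤ i → i < n →
      ((n ^ n + 1).Prime ↔ ∃ b : ZMod (n ^ n + 1), b ^ (n ^ i) = -1)) := by
  have h2 : 2 ≤ 2 ^ k := by
    calc 2 = 2 ^ 1 := by norm_num
      _ ≤ 2 ^ k := Nat.pow_le_pow_right (by norm_num) hk
  have hm : 2 ≤ k + 2 ^ k := by omega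
  obtain ⟨h1, h3⟩ := Pool.Agent.R496.NNQ.result (k + 2 ^ k) hm
  rw [Pool.Agent.R496.NN.nn_eq k n hn]
  constructor
  · intro d hd hd1 hd2
    rw [Pool.Agent.R496.NN.pow_eq k n (n / 4) hn, Pool.Agent.R496.NN.quarter k n hk hn]
    exact h1 d hd hd1 hd2
  · intro i hi hin
    rw [Pool.Agent.R496.NN.pow_eq k n i hn]
    refine h3 (2 ^ k * i) ?_ ?_
    · calc 2 ^ (k + 2 ^ k - 2) = 2 ^ k * (n / 4) := (Pool.Agent.R496.NN.quarter k n hk hn).symm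
        _ ≤ 2 ^ k * i := Nat.mul_le_mul_left _ hi
        _ ≤ 2 ^ k * i + 1 := Nat.le_succ _
    · calc 2 ^ k * i < 2 ^ k * n := Nat.mul_lt_mul_of_pos_left hin (by positivity)
        _ = 2 ^ (k + 2 ^ k) := Pool.Agent.R496.NN.full k n hn

end Pool.Agent.Results.MP_a70bdc_nt.QuarterPowerTest
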